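import Pool.Agent.KS6_15.HP.Top
import Pool.Agent.KS6_15.HP.Even
import Pool.Graph.R_pool_sql_team_seeded_620a6dc7.helper132_hp_.T_DICH
import Pool.Graph.R_pool_sql_team_seeded_620a6dc7.helper132_hp_.T_MV
import Pool.Graph.R_pool_sql_team_seeded_620a6dc7.helper132_hp_.T_VL
import Pool.Graph.R_pool_sql_team_seeded_620a6dc7.helper132_hp_.T_C1b
import Pool.Graph.R_pool_sql_team_seeded_620a6dc7.helper132_hp_.T_BS
import Pool.Graph.R_pool_sql_team_seeded_620a6dc7.helper132_hp_.T_FL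
import Pool.Graph.R_pool_sql_team_seeded_620a6dc7.helper132_hp_.T_C2
import Pool.Graph.R_pool_sql_team_seeded_620a6dc7.helper132_hp_.T_HEN
import Pool.Graph.R_pool_sql_team_seeded_620a6dc7.helper132_hp_.T_RL
import Pool.Graph.R_pool_sql_team_seeded_620a6dc7.helper132_hp_.T_DEC
import Pool.Graph.R_pool_sql_team_seeded_620a6dc7.helper132_hp_.T_INT
import Pool.Graph.R_pool_sql_team_seeded_620a6dc7.helper132_hp_.T_REAL
import Pool.Graph.R_pool_sql_team_seeded_620a6dc7.helper132_hp_.T_DENS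
import Pool.Graph.R_pool_sql_team_seeded_620a6dc7.helper132_hp_.T_ACM
import Pool.Graph.R_pool_sql_team_seeded_620a6dc7.helper132_hp_.T_ODD

/-!
# MP_c0a553_nt: the Hasse principle for quadratic forms in `k`-th powers, with a threshold `≪ k ^ 10`

`FF K A k y = ∑ A_ij y_i^k y_j^k`; `HasZero K A k`: it has a nontrivial zero over `K`;
`SmoothReal A k`: it has a nonsingular real zero; `Threshold k s0`: for all `s ≥ s0` the Hasse
principle holds for all nonsingular symmetric rational `A` of size `s`; `hh k` is the least threshold.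
-/

namespace Pool.Agent.Results.MP_c0a553_nt.ThresholdTenthPower

open Pool.Agent.helper132_hp Pool.Agent.KS6_15.HP Filter Topology

theorem sfin : SFin := by
  have hACM : S_ACM := t_ACM (t_DEC t_RL t_SC) t_INT t_REAL t_DENS
  have hC2 : S_C2 := t_C2 (t_BS t_MV t_VL) t_FL
  exact fun k hk s hs A hA hd hy => fin_new t_DICH (t_C1 t_MV t_VL) hC2 t_HEN hACM k hk s hs A hA hd hy

lemma bound {k s : ℕ} (hk : 1 ≤ k) (hs : 10 ^ 7 * k ^ 10 + 12000 * k ^ 5 ≤ s) :
    t1 k + 4 * r1 k ≤ s := by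
  unfold t1 r1
  omega

/-- (1) For odd `k` the Hasse principle holds for `Q(y_1^k, …, y_s^k)` in
`s ≥ 10 ^ 7 k ^ 10 + 12000 k ^ 5` variables, and there a nontrivial real zero alone gives a nontrivial
rational zero. (2) For every `k ≥ 1` and these `s` a nonsingular real zero gives a nontrivial rational
zero. (3) For `s ≥ 16000 k ^ 9` there is a nonsingular `p`-adic zero for every prime `p`. (4) For even
`k ≥ 2` and every `s ≥ 8 k + 2` there is a nonsingular `Q` such that `Q(y_1^k, …, y_s^k)` has a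
nontrivial real zero, is nonnegative on `ℝ ^ s`, has a nonsingular `p`-adic zero for every prime `p`, and
has no nontrivial rational zero; so there is no threshold for even `k`. (5) The least thresholds of the
odd `k` satisfy `h(k) ≤ 10 ^ 7 k ^ 10 + 12000 k ^ 5`, so `log h(k) = O(log k)`. -/
theorem result :
    (∀ k, Odd k → Threshold k (10 ^ 7 * k ^ 10 + 12000 * k ^ 5) ∧
      ∀ s ≥ 10 ^ 7 * k ^ 10 + 12000 * k ^ 5, ∀ A : Matrix (Fin s) (Fin s) ℚ, A.IsSymm → A.det ≠ 0 →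
        HasZero ℝ A k → HasZero ℚ A k) ∧
    (∀ k ≥ 1, ∀ s ≥ 10 ^ 7 * k ^ 10 + 12000 * k ^ 5, ∀ A : Matrix (Fin s) (Fin s) ℚ, A.IsSymm →
      A.det ≠ 0 → SmoothReal A k → HasZero ℚ A k) ∧
    (∀ k ≥ 1, ∀ s ≥ 16000 * k ^ 9, ∀ A : Matrix (Fin s) (Fin s) ℚ, A.IsSymm → A.det ≠ 0 →
      ∀ (p : ℕ) [Fact p.Prime], ∃ y : Fin s → ℚ_[p], FF ℚ_[p] A k y = 0 ∧
        ∃ l, y l ^ (k - 1) * ∑ j, (A l j : ℚ_[p]) * y j ^ k ≠ 0) ∧
    (∀ k, Even k → 2 ≤ k → (∀ s ≥ 8 * k + 2,
      ∃ A : Matrix (Fin s) (Fin s) ℚ, A.IsSymm ∧ A.det ≠ 0 ∧ HasZero ℝ A k ∧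
        (∀ y : Fin s → ℝ, 0 ≤ FF ℝ A k y) ∧
        (∀ (p : ℕ) [Fact p.Prime], ∃ y : Fin s → ℚ_[p], FF ℚ_[p] A k y = 0 ∧
          ∃ l, y l ^ (k - 1) * ∑ j, (A l j : ℚ_[p]) * y j ^ k ≠ 0) ∧
        ¬ HasZero ℚ A k) ∧ ∀ s0, ¬ Threshold k s0) ∧
    (∀ k, Odd k → hh k ≤ 10 ^ 7 * k ^ 10 + 12000 * k ^ 5) ∧
    Tendsto (fun m : ℕ => Real.log (hh (2 * m + 1)) / ((2 * m + 1 : ℕ) : ℝ)) atTop (𝓝 0) := by
  have hodd : ∀ k, Odd k → ∀ s ≥ 10 ^ 7 * k ^ 10 + 12000 * k ^ 5,
      ∀ A : Matrix (Fin s) (Fin s) ℚ, A.IsSymm → A.det ≠ 0 → HasZero ℝ A k → HasZero ℚ A k := by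
    intro k hk s hs A hA hdet hR
    have hk1 : 1 ≤ k := hk.pos
    have h1 : 1 ≤ k ^ 10 := Nat.one_le_pow _ _ hk1
    exact odd_new sfin t_ODD k hk (bound hk1 hs) (by omega) A hA hdet hR
  have hthr : ∀ k, Odd k → Threshold k (10 ^ 7 * k ^ 10 + 12000 * k ^ 5) :=
    fun k hk s hs A hA hdet hR _ => hodd k hk s hs A hA hdet hR
  have hle : ∀ k, Odd k → hh k ≤ 10 ^ 7 * k ^ 10 + 12000 * k ^ 5 := by
    intro k hk
    unfold hh
    exact Nat.sInf_le (hthr k hk)
  refine ⟨fun k hk => ⟨hthr k hk, hodd k hk⟩, ?_, ?_, ?_, hle, ?_⟩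
  · intro k hk s hs A hA hdet hy
    exact smooth_new sfin k hk (bound hk hs) A hA hdet hy
  · intro k hk s hs A hA hdet p _
    exact padic_smooth p k hk hs A hA hdet
  · intro k hk hk2
    refine ⟨fun s hs => even_new k hk hk2 s hs, fun s0 hT => ?_⟩
    obtain ⟨A, hA, hdet, hR, -, hp, hQ⟩ := even_new k hk hk2 (max s0 (8 * k + 2)) (le_max_right _ _)
    refine hQ (hT _ (le_max_left _ _) A hA hdet hR fun p _ => ?_)
    obtain ⟨y, hy, l, hl⟩ := hp p
    refine ⟨y, ?_, hy⟩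
    rintro rfl
    apply hl
    have : ∑ j, (A l j : ℚ_[p]) * (0 : Fin (max s0 (8 * k + 2)) → ℚ_[p]) j ^ k = 0 :=
      Finset.sum_eq_zero fun j _ => by simp [show k ≠ 0 by omega]
    rw [this, mul_zero]
  · have hbound : ∀ m : ℕ, Real.log (hh (2 * m + 1)) ≤
        Real.log (2 * 10 ^ 7) + 10 * Real.log ((2 * m + 1 : ℕ) : ℝ) := by
      intro m
      have hm : (0 : ℝ) < ((2 * m + 1 : ℕ) : ℝ) := by exact_mod_cast Nat.succ_pos _
      have hm1 : (1 : ℝ) ≤ ((2 * m + 1 : ℕ) : ℝ) := by exact_mod_cast (by omega : 1 ≤ 2 * m + 1)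
      rcases Nat.eq_zero_or_pos (hh (2 * m + 1)) with h0 | h0
      · rw [h0]
        simp only [Nat.cast_zero, Real.log_zero]
        have := Real.log_nonneg (by norm_num : (1:ℝ) ≤ 2 * 10 ^ 7)
        have := Real.log_nonneg hm1
        positivity
      · have h1 : (0 : ℝ) < hh (2 * m + 1) := by exact_mod_cast h0
        have h3 : hh (2 * m + 1) ≤ 2 * 10 ^ 7 * (2 * m + 1) ^ 10 := by
          refine (hle _ ⟨m, rfl⟩).trans ?_
          have : (2 * m + 1) ^ 5 ≤ (2 * m + 1) ^ 10 := Nat.pow_le_pow_right (by omega) (by norm_num)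
          omega
        have h2 : (hh (2 * m + 1) : ℝ) ≤ 2 * 10 ^ 7 * ((2 * m + 1 : ℕ) : ℝ) ^ 10 := by
          exact_mod_cast h3
        calc Real.log (hh (2 * m + 1)) ≤ Real.log (2 * 10 ^ 7 * ((2 * m + 1 : ℕ) : ℝ) ^ 10) :=
              Real.log_le_log h1 h2
          _ = Real.log (2 * 10 ^ 7) + 10 * Real.log ((2 * m + 1 : ℕ) : ℝ) := by
              rw [Real.log_mul (by positivity) (by positivity), Real.log_pow]
              push_cast
              ring
    have hlim : Tendsto (fun x : ℝ => (Real.log (2 * 10 ^ 7) + 10 * Real.log x) / x) atTop (𝓝 0) := by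
      have h1 : Tendsto (fun x : ℝ => Real.log (2 * 10 ^ 7) / x) atTop (𝓝 0) :=
        tendsto_const_nhds.div_atTop tendsto_id
      have h2 : Tendsto (fun x : ℝ => Real.log x / x) atTop (𝓝 0) := by
        have := Real.isLittleO_log_id_atTop
        simpa using this.tendsto_div_nhds_zero
      have h3 := h1.add (h2.const_mul 10)
      simp only [mul_zero, add_zero] at h3
      refine h3.congr fun x => ?_
      ring
    have hseq : Tendsto (fun m : ℕ => ((2 * m + 1 : ℕ) : ℝ)) atTop atTop := by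
      refine tendsto_natCast_atTop_atTop.comp ?_
      refine tendsto_atTop_mono (fun m => ?_) tendsto_id
      simp only [id]; omega
    have hlim2 := hlim.comp hseq
    refine squeeze_zero (fun m => ?_) (fun m => ?_) hlim2
    · exact div_nonneg (Real.log_natCast_nonneg _) (Nat.cast_nonneg _)
    · exact div_le_div_of_nonneg_right (hbound m) (Nat.cast_nonneg _)

end Pool.Agent.Results.MP_c0a553_nt.ThresholdTenthPower
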